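import Pool.Agent.H590.NL.Stm

/-!
# The key inequality for regularised kernels (task NL590 KG of helper590; helper79)
-/

set_option autoImplicit false

noncomputable section

open MeasureTheory Filter Topology Set
open scoped BigOperators ENNReal

namespace Pool.Agent.H79.NL.KG

open H590NL

theorem ip_cont {m : ℕ} (w : V (m + 1)) :
    Continuous (fun z : ℝ × V m => ip w (Fin.cons z.1 z.2 : Fin (m + 1) → ℝ)) := by
  unfold ip
  refine continuous_finsetSum _ fun i _ => continuous_const.mul ?_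
  refine Fin.cases ?_ (fun j => ?_) i
  · simpa only [Fin.cons_zero] using continuous_fst
  · simp only [Fin.cons_succ]
    exact (continuous_apply j).comp continuous_snd

theorem GG_cont {m : ℕ} {κ : Type} [Fintype κ] {ψ : ℝ → ℝ} (hψ : Continuous ψ)
    (v : κ → V (m + 1)) : Continuous (fun z : ℝ × V m => GG ψ v z.1 z.2) := by
  unfold GG uu
  exact continuous_finsetSum _ fun j _ => hψ.comp (ip_cont (v j))

/-- Fubini -/
theorem fub {m : ℕ} {κ : Type} [Fintype κ] {ψ : ℝ → ℝ} (hψ : Continuous ψ) (v : κ → V (m + 1))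
    (hI : ∀ s, Integrable (fun x : V m => Real.exp (-(GG ψ v s x)))) (W : ℝ → ℝ)
    (hW : Continuous W) (hW0 : ∀ s, 0 ≤ W s) (hi : Integrable fun s => ZZ ψ v s * W s) :
    ∫ x : V (m + 1), Real.exp (-(∑ j, ψ (ip (v j) x))) * W (x 0) = ∫ s, ZZ ψ v s * W s := by
  have hmp := (MeasureTheory.volume_preserving_piFinSuccAbove (fun _ : Fin (m + 1) => ℝ) 0).symm
  have h1 := hmp.integral_comp'
    (fun x : V (m + 1) => Real.exp (-(∑ j, ψ (ip (v j) x))) * W (x 0))
  rw [← h1]
  have h2 : ∀ z : ℝ × V m, Real.exp (-(∑ j, ψ (ip (v j)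
      ((MeasurableEquiv.piFinSuccAbove (fun _ : Fin (m + 1) => ℝ) 0).symm z)))) *
      W ((MeasurableEquiv.piFinSuccAbove (fun _ : Fin (m + 1) => ℝ) 0).symm z 0) =
      Real.exp (-(GG ψ v z.1 z.2)) * W z.1 := by
    intro z
    have h3 : (MeasurableEquiv.piFinSuccAbove (fun _ : Fin (m + 1) => ℝ) 0).symm z =
        (Fin.cons z.1 z.2 : Fin (m + 1) → ℝ) := by
      change (Fin.insertNth 0 z.1 z.2 : Fin (m + 1) → ℝ) = _
      rw [Fin.insertNth_zero']
    rw [h3, Fin.cons_zero]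
    rfl
  have hf : Continuous (fun z : ℝ × V m => Real.exp (-(GG ψ v z.1 z.2)) * W z.1) :=
    (Real.continuous_exp.comp (GG_cont hψ v).neg).mul (hW.comp continuous_fst)
  have h4 : ∀ s, ∫ x : V m, Real.exp (-(GG ψ v s x)) * W s = ZZ ψ v s * W s := by
    intro s
    rw [integral_mul_const]
    rfl
  have hint : Integrable (fun z : ℝ × V m => Real.exp (-(GG ψ v z.1 z.2)) * W z.1)
      (volume.prod volume) := by
    rw [integrable_prod_iff hf.aestronglyMeasurable]
    refine ⟨Eventually.of_forall fun s => (hI s).mul_const (W s), ?_⟩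
    refine hi.congr (Eventually.of_forall fun s => ?_)
    simp only
    rw [← h4 s]
    refine integral_congr_ae (Eventually.of_forall fun x => ?_)
    simp only
    rw [Real.norm_of_nonneg (mul_nonneg (Real.exp_pos _).le (hW0 s))]
  calc _ = ∫ z : ℝ × V m, Real.exp (-(GG ψ v z.1 z.2)) * W z.1 :=
        integral_congr_ae (Eventually.of_forall h2)
    _ = ∫ s, ∫ x : V m, Real.exp (-(GG ψ v s x)) * W s := by
        rw [Measure.volume_eq_prod, integral_prod _ hint]
    _ = _ := by simp_rw [h4]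

theorem rpow_bd {p : ℝ} (hp1 : 1 < p) (hp2 : p < 2) (s : ℝ) : |s| ^ p ≤ 1 + s ^ 2 := by
  rcases le_or_gt |s| 1 with h | h
  · have h1 := Real.rpow_le_one (abs_nonneg s) h (by linarith : 0 ≤ p)
    nlinarith [sq_nonneg s]
  · have h1 := Real.rpow_le_rpow_of_exponent_le h.le hp2.le
    have h2 : |s| ^ (2 : ℝ) = s ^ 2 := by
      rw [← sq_abs s]
      exact_mod_cast Real.rpow_natCast |s| 2
    rw [h2] at h1
    linarith

theorem gint {c : ℝ} (hc : 0 < c) : Integrable fun s : ℝ => Real.exp (-(c * s ^ 2)) := by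
  refine (integrable_exp_neg_mul_sq hc).congr (Eventually.of_forall fun s => ?_)
  simp only [neg_mul]

theorem gint2 {c : ℝ} (hc : 0 < c) :
    Integrable fun s : ℝ => (1 + s ^ 2) * Real.exp (-(c * s ^ 2)) := by
  have h1 := integrable_rpow_mul_exp_neg_mul_sq hc (s := 2) (by norm_num)
  refine ((gint hc).add h1).congr (Eventually.of_forall fun s => ?_)
  have h2 : s ^ (2 : ℝ) = s ^ 2 := by exact_mod_cast Real.rpow_natCast s 2
  simp only [Pi.add_apply, h2, neg_mul]
  ring

theorem KG (h1 : S_MN) (h2 : S_MO) (h3 : S_TN) (h4 : S_ZD) : S_KG := by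
  intro m κ _ p b C ψ ω ψ2 ν hp1 hp2 hK v hv y hy
  obtain ⟨hI, hZ, hZ1, ⟨Z2, hZ2⟩, C', c', hc', hb⟩ := h4 m κ p b C ψ ω ψ2 ν hp1 hp2 hK v hv
  have hψ : Continuous ψ := continuous_iff_continuousAt.2 fun u => (hK.d1 u).continuousAt
  have hZc : Continuous (ZZ ψ v) := continuous_iff_continuousAt.2 fun s => (hZ1 s).continuousAt
  have hZ1c : Continuous (Z1 ψ ω v) :=
    continuous_iff_continuousAt.2 fun s => (hZ2 s).continuousAt
  have hmom := h2 p (ZZ ψ v) (Z1 ψ ω v) hp1 hp2 hZ1 hZ1c (fun s => (hZ s).1) ⟨C', c', hc', hb⟩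
    (h1 m κ p b C ψ ω ψ2 ν hp1 hp2 hK v hv)
  have key := h3 p (ZZ ψ v) hp1 hp2 hZc (fun s => (hZ s).1) ⟨C', c', hc', fun s => (hb s).1⟩
    hmom y hy
  have hC' : 0 ≤ C' := by
    have h5 := (hZ 0).1.le.trans (hb 0).1
    by_contra hcon
    push Not at hcon
    have h6 : C' * Real.exp (-(c' * 0 ^ 2)) < 0 := mul_neg_of_neg_of_pos hcon (Real.exp_pos _)
    linarith
  -- the three weights
  have hp0 : 0 < p := by linarith
  have cW : Continuous fun s : ℝ => |s| ^ p := continuous_abs.rpow_const fun s => Or.inr hp0.le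
  have cE : Continuous fun s : ℝ => Real.exp (-(y * |s| ^ p)) :=
    Real.continuous_exp.comp (continuous_const.mul cW).neg
  have even : ∀ s, ZZ ψ v |s| = ZZ ψ v s := by
    intro s
    rcases abs_choice s with h | h
    · rw [h]
    · rw [h, (hZ s).2]
  have iZ : Integrable (ZZ ψ v) := by
    refine ((gint hc').const_mul C').mono' hZc.aestronglyMeasurable
      (Eventually.of_forall fun s => ?_)
    rw [Real.norm_of_nonneg (hZ s).1.le]
    exact (hb s).1
  have iE : Integrable fun s => ZZ ψ v s * Real.exp (-(y * |s| ^ p)) := by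
    refine iZ.mono' (hZc.mul cE).aestronglyMeasurable (Eventually.of_forall fun s => ?_)
    rw [Real.norm_of_nonneg (mul_nonneg (hZ s).1.le (Real.exp_pos _).le)]
    have h5 : Real.exp (-(y * |s| ^ p)) ≤ 1 := Real.exp_le_one_iff.2
      (neg_nonpos.2 (mul_nonneg hy (Real.rpow_nonneg (abs_nonneg s) p)))
    nlinarith [(hZ s).1]
  have iW : Integrable fun s => ZZ ψ v s * |s| ^ p := by
    refine ((gint2 hc').const_mul C').mono' (hZc.mul cW).aestronglyMeasurable
      (Eventually.of_forall fun s => ?_)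
    have h5 := Real.rpow_nonneg (abs_nonneg s) p
    rw [Real.norm_of_nonneg (mul_nonneg (hZ s).1.le h5)]
    calc ZZ ψ v s * |s| ^ p ≤ (C' * Real.exp (-(c' * s ^ 2))) * (1 + s ^ 2) :=
          mul_le_mul (hb s).1 (rpow_bd hp1 hp2 s) h5 (mul_nonneg hC' (Real.exp_pos _).le)
      _ = _ := by ring
  have f0 := fub hψ v hI (fun _ => 1) continuous_const (fun _ => zero_le_one) (by
    simpa only [mul_one] using iZ)
  have fE := fub hψ v hI (fun s => Real.exp (-(y * |s| ^ p))) cE (fun s => (Real.exp_pos _).le) iE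
  have fW := fub hψ v hI (fun s => |s| ^ p) cW (fun s => Real.rpow_nonneg (abs_nonneg s) p) iW
  simp only [mul_one] at f0
  have g0 : ∫ s, ZZ ψ v s = 2 * ∫ s in Ioi (0 : ℝ), ZZ ψ v s := by
    rw [← integral_comp_abs (f := ZZ ψ v)]
    simp_rw [even]
  have gE : ∫ s, ZZ ψ v s * Real.exp (-(y * |s| ^ p)) =
      2 * ∫ s in Ioi (0 : ℝ), ZZ ψ v s * Real.exp (-(y * s ^ p)) := by
    rw [← integral_comp_abs (f := fun s => ZZ ψ v s * Real.exp (-(y * s ^ p)))]
    simp_rw [even]
  have gW : ∫ s, ZZ ψ v s * |s| ^ p = 2 * ∫ s in Ioi (0 : ℝ), ZZ ψ v s * s ^ p := by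
    rw [← integral_comp_abs (f := fun s => ZZ ψ v s * s ^ p)]
    simp_rw [even]
  have e1 : ∀ x : V (m + 1), Real.exp (-(∑ j, ψ (ip (v j) x) + y * |x 0| ^ p)) =
      Real.exp (-(∑ j, ψ (ip (v j) x))) * Real.exp (-(y * |x 0| ^ p)) := by
    intro x
    rw [← Real.exp_add]
    congr 1
    ring
  simp_rw [e1]
  rw [f0, fE, fW, g0, gE, gW, mul_div_mul_left _ _ (two_ne_zero), mul_assoc]
  exact mul_le_mul_of_nonneg_left key (by norm_num)

end Pool.Agent.H79.NL.KG
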